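import Pool.Agent.H355R2.Chamb.Real

set_option autoImplicit false

/-! Points near `2^K m` are attracted to the cycle `{1, 2}`. -/

namespace Pool.Agent.H355R2.Chamb

open Filter Topology

theorem attracted (K m t : ℕ) (hm : 1 ≤ m) (ht : T^[t] m = 1) (Λ : ℝ)
    (hΛ : ∑ i ∈ Finset.range (t + 1), ((T^[i] m : ℕ) : ℝ) ^ 2 ≤ Λ * (m : ℝ) ^ 2)
    (hK : 200 * (7 / 8 : ℝ) ^ K * Λ ≤ 1) (e : ℝ) (he : |e| * (2 ^ K * m : ℕ) ≤ 1 / 3) :
    ∃ s : ℕ, Tendsto (fun j : ℕ => f^[s + 2 * j] ((2 ^ K * m : ℕ) + e)) atTop (𝓝 1) := by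
  have hmR : (1 : ℝ) ≤ m := by exact_mod_cast hm
  set q : ℝ := (7 / 8) ^ K * (1 / 3) with hq
  have hq0 : 0 < q := by positivity
  have h1 := even_phase K m hm e he
  set e' := f^[K] ((2 ^ K * m : ℕ) + e) - m with he'
  set r : ℝ := q / (m : ℝ) ^ 2 with hr
  have hr0 : 0 ≤ r := by positivity
  have h2 : |e'| ≤ r * m := by
    have : r * m = q / m := by rw [hr]; field_simp
    rw [this, le_div_iff₀ (by linarith)]
    exact h1
  have hm2 : (0 : ℝ) < (m : ℝ) ^ 2 := by positivity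
  have h3 : 40 * r * ∑ i ∈ Finset.range (t + 1), ((T^[i] m : ℕ) : ℝ) ^ 2 ≤ 1 := by
    calc 40 * r * ∑ i ∈ Finset.range (t + 1), ((T^[i] m : ℕ) : ℝ) ^ 2
        ≤ 40 * r * (Λ * (m : ℝ) ^ 2) := mul_le_mul_of_nonneg_left hΛ (by positivity)
      _ = 40 * q * Λ := by rw [hr]; field_simp
      _ ≤ 1 := by
        have h4 : 40 * q * Λ = 1 / 15 * (200 * (7 / 8 : ℝ) ^ K * Λ) := by rw [hq]; ring
        rw [h4]; linarith
  have h5 := shadow' m hm e' r hr0 h2 t h3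
  rw [ht] at h5
  have hΛ1 : 1 ≤ Λ := by
    have h6 : (m : ℝ) ^ 2 ≤ ∑ i ∈ Finset.range (t + 1), ((T^[i] m : ℕ) : ℝ) ^ 2 := by
      have := Finset.single_le_sum (f := fun i => ((T^[i] m : ℕ) : ℝ) ^ 2)
        (fun i _ => sq_nonneg _) (Finset.mem_range.2 (Nat.succ_pos t))
      simpa using this
    have h7 : 1 * (m : ℝ) ^ 2 ≤ Λ * (m : ℝ) ^ 2 := by linarith
    exact le_of_mul_le_mul_right h7 hm2
  have h8 : r ≤ q := by
    rw [hr, div_le_iff₀ hm2]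
    have hm3 : (1 : ℝ) ≤ (m : ℝ) ^ 2 := one_le_pow₀ hmR
    calc q = q * 1 := (mul_one q).symm
      _ ≤ q * (m : ℝ) ^ 2 := mul_le_mul_of_nonneg_left hm3 hq0.le
  have h9 : q ≤ 1 / 600 := by
    have : 200 * (7 / 8 : ℝ) ^ K * 1 ≤ 200 * (7 / 8 : ℝ) ^ K * Λ :=
      mul_le_mul_of_nonneg_left hΛ1 (by positivity)
    rw [hq]; linarith
  set e'' := f^[t] (m + e') - ((1 : ℕ) : ℝ) with he''
  have h10 : |e''| ≤ 1 / 100 := by
    refine h5.trans ?_
    push_cast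
    linarith
  have h11 := basin e'' h10
  refine ⟨t + K, ?_⟩
  refine h11.congr (fun j => ?_)
  have h12 : t + K + 2 * j = 2 * j + (t + K) := by ring
  rw [h12, Function.iterate_add_apply f (2 * j), Function.iterate_add_apply f t K]
  have h13 : f^[K] ((2 ^ K * m : ℕ) + e) = m + e' := by rw [he']; ring
  rw [h13]
  congr 1
  rw [he'']; push_cast; ring

end Pool.Agent.H355R2.Chamb
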