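import Pool.Agent.H355R2.Chamb.Real

set_option autoImplicit false

/-! Exponential moments of the parity words of the `3x+1` map. -/

namespace Pool.Agent.H355R2.Chamb

open Finset

/-- the weight of one step: square root of the multiplier -/
noncomputable def g (n : ℕ) : ℝ := if n % 2 = 0 then 1 / √2 else √3 / √2

noncomputable def G (j n : ℕ) : ℝ := ∏ i ∈ range j, g (T^[i] n)

theorem g_nonneg (n : ℕ) : 0 ≤ g n := by unfold g; split_ifs <;> positivity

theorem G_nonneg (j n : ℕ) : 0 ≤ G j n := prod_nonneg fun _ _ => g_nonneg _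

theorem G_succ (j n : ℕ) : G (j + 1) n = g n * G j (T n) := by
  unfold G
  rw [prod_range_succ']
  simp only [Function.iterate_succ_apply, Function.iterate_zero, id]
  ring

theorem G_succ' (j n : ℕ) : G (j + 1) n = G j n * g (T^[j] n) := by
  unfold G
  rw [prod_range_succ]

theorem T_mod (j a b : ℕ) (h : a % 2 ^ (j + 1) = b % 2 ^ (j + 1)) :
    a % 2 = b % 2 ∧ T a % 2 ^ j = T b % 2 ^ j := by
  have h2 : a % 2 = b % 2 := by
    have h3 : a % 2 ^ (j + 1) % 2 = b % 2 ^ (j + 1) % 2 := by rw [h]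
    rwa [Nat.mod_mod_of_dvd _ (dvd_pow_self 2 (by omega)),
      Nat.mod_mod_of_dvd _ (dvd_pow_self 2 (by omega))] at h3
  refine ⟨h2, ?_⟩
  have h4 : (a : ℤ) ≡ b [ZMOD 2 ^ (j + 1)] := by
    have : a ≡ b [MOD 2 ^ (j + 1)] := h
    have := (Int.natCast_modEq_iff).2 this
    push_cast at this
    exact this
  rw [Int.modEq_iff_dvd] at h4
  obtain ⟨k, hk⟩ := h4
  suffices hs : ((T a : ℕ) : ℤ) ≡ ((T b : ℕ) : ℤ) [ZMOD ((2 ^ j : ℕ) : ℤ)] from
    (Int.natCast_modEq_iff).1 hs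
  rw [Int.modEq_iff_dvd]
  by_cases he : a % 2 = 0
  · have h5 : (2 : ℤ) * (T a : ℕ) = a := by
      have : 2 * T a = a := by unfold T; rw [if_pos he]; omega
      exact_mod_cast this
    have h6 : (2 : ℤ) * (T b : ℕ) = b := by
      have : 2 * T b = b := by unfold T; rw [if_pos (by omega)]; omega
      exact_mod_cast this
    refine ⟨k, ?_⟩
    have : (2 : ℤ) * (((T b : ℕ) : ℤ) - (T a : ℕ)) = 2 * (((2 ^ j : ℕ) : ℤ) * k) := by
      push_cast
      rw [mul_sub, h5, h6, hk, pow_succ]; ring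
    linarith
  · have h5 : (2 : ℤ) * (T a : ℕ) = 3 * a + 1 := by
      have : 2 * T a = 3 * a + 1 := by unfold T; rw [if_neg he]; omega
      exact_mod_cast this
    have h6 : (2 : ℤ) * (T b : ℕ) = 3 * b + 1 := by
      have : 2 * T b = 3 * b + 1 := by unfold T; rw [if_neg (by omega)]; omega
      exact_mod_cast this
    refine ⟨3 * k, ?_⟩
    have : (2 : ℤ) * (((T b : ℕ) : ℤ) - (T a : ℕ)) = 2 * (((2 ^ j : ℕ) : ℤ) * (3 * k)) := by
      push_cast
      rw [mul_sub, h5, h6]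
      have : (3 * (b : ℤ) + 1) - (3 * a + 1) = 3 * (b - a) := by ring
      rw [this, hk, pow_succ]; ring
    linarith

theorem G_periodic (j : ℕ) : ∀ a b : ℕ, a % 2 ^ j = b % 2 ^ j → G j a = G j b := by
  induction j with
  | zero => intro a b _; simp [G]
  | succ j ih =>
    intro a b h
    obtain ⟨h1, h2⟩ := T_mod j a b h
    rw [G_succ, G_succ, ih _ _ h2]
    unfold g
    rw [h1]

theorem sum_even_odd (F : ℕ → ℝ) (N : ℕ) :
    ∑ n ∈ range (2 * N), F n = ∑ a ∈ range N, (F (2 * a) + F (2 * a + 1)) := by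
  induction N with
  | zero => simp
  | succ N ih =>
    rw [show 2 * (N + 1) = 2 * N + 1 + 1 by ring, sum_range_succ, sum_range_succ, ih, sum_range_succ]
    ring

theorem sum_perm (j : ℕ) : ∑ a ∈ range (2 ^ j), G j (3 * a + 2) = ∑ a ∈ range (2 ^ j), G j a := by
  have h1 : ∀ a ∈ range (2 ^ j), G j (3 * a + 2) = G j ((3 * a + 2) % 2 ^ j) := by
    intro a _
    exact G_periodic j _ _ (by rw [Nat.mod_mod])
  rw [sum_congr rfl h1]
  have hinj : Set.InjOn (fun a : ℕ => (3 * a + 2) % 2 ^ j) (range (2 ^ j) : Finset ℕ) := by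
    intro a ha b hb hab
    rw [mem_coe, mem_range] at ha hb
    have h2 : 3 * a + 2 ≡ 3 * b + 2 [MOD 2 ^ j] := hab
    have h3 : 3 * a ≡ 3 * b [MOD 2 ^ j] := Nat.ModEq.add_right_cancel' 2 h2
    have h4 : a ≡ b [MOD 2 ^ j] :=
      Nat.ModEq.cancel_left_of_coprime (by
        have : Nat.Coprime 2 3 := by decide
        exact (this.pow_left j)) h3
    have h5 : a % 2 ^ j = b % 2 ^ j := h4
    rwa [Nat.mod_eq_of_lt ha, Nat.mod_eq_of_lt hb] at h5
  have himg : (range (2 ^ j)).image (fun a : ℕ => (3 * a + 2) % 2 ^ j) = range (2 ^ j) := by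
    apply eq_of_subset_of_card_le
    · intro x hx
      rw [mem_image] at hx
      obtain ⟨a, _, rfl⟩ := hx
      exact mem_range.2 (Nat.mod_lt _ (by positivity))
    · rw [card_image_of_injOn hinj]
  rw [← sum_image (f := fun x => G j x) (g := fun a : ℕ => (3 * a + 2) % 2 ^ j) hinj, himg]

theorem sum_period (j : ℕ) : ∑ n ∈ range (2 ^ j), G j n = ((1 + √3) / √2) ^ j := by
  induction j with
  | zero => simp [G]
  | succ j ih =>
    rw [pow_succ 2 j, mul_comm (2 ^ j) 2, sum_even_odd]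
    have h1 : ∀ a : ℕ, G (j + 1) (2 * a) = 1 / √2 * G j a := by
      intro a
      rw [G_succ]
      have h2 : T (2 * a) = a := by unfold T; rw [if_pos (by omega)]; omega
      have h3 : g (2 * a) = 1 / √2 := by unfold g; rw [if_pos (by omega)]
      rw [h2, h3]
    have h2 : ∀ a : ℕ, G (j + 1) (2 * a + 1) = √3 / √2 * G j (3 * a + 2) := by
      intro a
      rw [G_succ]
      have h2 : T (2 * a + 1) = 3 * a + 2 := by unfold T; rw [if_neg (by omega)]; omega
      have h3 : g (2 * a + 1) = √3 / √2 := by unfold g; rw [if_neg (by omega)]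
      rw [h2, h3]
    simp only [h1, h2]
    rw [sum_add_distrib, ← mul_sum, ← mul_sum, sum_perm, ih, pow_succ]
    ring

theorem sum_mul_period (j q : ℕ) : ∑ n ∈ range (q * 2 ^ j), G j n = q * ((1 + √3) / √2) ^ j := by
  induction q with
  | zero => simp
  | succ q ih =>
    rw [add_mul, one_mul, sum_range_add, ih]
    have h1 : ∀ x ∈ range (2 ^ j), G j (q * 2 ^ j + x) = G j x := by
      intro x _
      exact G_periodic j _ _ (by rw [mul_comm, Nat.mul_add_mod])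
    rw [sum_congr rfl h1, sum_period]
    push_cast
    ring

noncomputable def th : ℝ := (1 + √3) / (2 * √2)

theorem th_pos : 0 < th := by unfold th; positivity

theorem th_lt : th < 1 := by
  unfold th
  rw [div_lt_one (by positivity)]
  have h2 : √2 ^ 2 = 2 := Real.sq_sqrt (by norm_num)
  have h3 : √3 ^ 2 = 3 := Real.sq_sqrt (by norm_num)
  have h2' : 0 ≤ √2 := Real.sqrt_nonneg _
  have h3' : 0 ≤ √3 := Real.sqrt_nonneg _
  have h4 : √3 < 2 := by nlinarith
  nlinarith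

theorem sum_le (j N : ℕ) (h : 2 ^ j ≤ N) : ∑ n ∈ range N, G j n ≤ 2 * N * th ^ j := by
  have h1 : ∑ n ∈ range N, G j n ≤ ∑ n ∈ range ((N / 2 ^ j + 1) * 2 ^ j), G j n := by
    apply sum_le_sum_of_subset_of_nonneg
    · apply range_mono
      have := Nat.lt_div_mul_add (a := N) (b := 2 ^ j) (by positivity)
      nlinarith
    · intro _ _ _; exact G_nonneg _ _
  refine h1.trans ?_
  rw [sum_mul_period]
  have h2 : (((N / 2 ^ j + 1 : ℕ)) : ℝ) ≤ 2 * N / 2 ^ j := by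
    rw [le_div_iff₀ (by positivity)]
    have h3 : (N / 2 ^ j + 1) * 2 ^ j ≤ 2 * N := by
      have := Nat.div_mul_le_self N (2 ^ j)
      nlinarith
    exact_mod_cast h3
  calc (((N / 2 ^ j + 1 : ℕ)) : ℝ) * ((1 + √3) / √2) ^ j ≤ 2 * N / 2 ^ j * ((1 + √3) / √2) ^ j :=
        mul_le_mul_of_nonneg_right h2 (by positivity)
    _ = 2 * N * th ^ j := by
        have : th = ((1 + √3) / √2) / 2 := by unfold th; field_simp
        rw [this, div_pow _ (2 : ℝ)]
        generalize ((1 + √3) / √2) ^ j = y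
        field_simp

/-- total weight of the first `J+1` levels -/
noncomputable def W (J n : ℕ) : ℝ := ∑ j ∈ range (J + 1), G j n

theorem W_nonneg (J n : ℕ) : 0 ≤ W J n := sum_nonneg fun _ _ => G_nonneg _ _

theorem sum_W (J N : ℕ) (h : 2 ^ J ≤ N) : ∑ n ∈ range N, W J n ≤ 2 * N / (1 - th) := by
  unfold W
  rw [sum_comm]
  have h1 : ∀ j ∈ range (J + 1), ∑ n ∈ range N, G j n ≤ 2 * N * th ^ j := by
    intro j hj
    rw [mem_range] at hj
    exact sum_le j N (le_trans (Nat.pow_le_pow_right (by norm_num) (by omega)) h)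
  refine (sum_le_sum h1).trans ?_
  rw [← mul_sum]
  have hth := th_lt
  have hth0 := th_pos
  have h2 : ∑ i ∈ range (J + 1), th ^ i ≤ 1 / (1 - th) := by
    rw [le_div_iff₀ (by linarith)]
    have h3 := geom_sum_mul_neg th (J + 1)
    rw [h3]
    have := pow_pos hth0 (J + 1)
    linarith
  calc 2 * (N : ℝ) * ∑ i ∈ range (J + 1), th ^ i ≤ 2 * N * (1 / (1 - th)) :=
        mul_le_mul_of_nonneg_left h2 (by positivity)
    _ = 2 * N / (1 - th) := by ring

/-- Markov inequality -/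
theorem card_W (J N : ℕ) (h : 2 ^ J ≤ N) (D : ℝ) (hD : 0 < D) :
    (((range N).filter (fun n => D < W J n)).card : ℝ) ≤ 2 * N / ((1 - th) * D) := by
  have hth := th_lt
  have h1 : (((range N).filter (fun n => D < W J n)).card : ℝ) * D ≤ 2 * N / (1 - th) := by
    calc (((range N).filter (fun n => D < W J n)).card : ℝ) * D
        = ∑ n ∈ (range N).filter (fun n => D < W J n), D := by rw [sum_const, nsmul_eq_mul]
      _ ≤ ∑ n ∈ (range N).filter (fun n => D < W J n), W J n :=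
          sum_le_sum fun n hn => (mem_filter.1 hn).2.le
      _ ≤ ∑ n ∈ range N, W J n :=
          sum_le_sum_of_subset_of_nonneg (filter_subset _ _) fun _ _ _ => W_nonneg _ _
      _ ≤ _ := sum_W J N h
  rw [← div_div, le_div_iff₀ hD]
  exact h1

/-! ### growth of the orbit -/

theorem g_sq_le (m : ℕ) : ((T m : ℕ) : ℝ) ≤ g m ^ 2 * m + 1 / 2 ∧
    (m % 2 = 0 → ((T m : ℕ) : ℝ) ≤ g m ^ 2 * m) ∧ g m ^ 2 ≤ 3 / 2 := by
  unfold g
  have h2 : √2 ^ 2 = 2 := Real.sq_sqrt (by norm_num)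
  have h3 : √3 ^ 2 = 3 := Real.sq_sqrt (by norm_num)
  by_cases h : m % 2 = 0
  · rw [if_pos h, T_even m h, div_pow, h2]
    refine ⟨by linarith, fun _ => by linarith, by norm_num⟩
  · rw [if_neg h, T_odd m h, div_pow, h2, h3]
    refine ⟨by linarith, fun h' => absurd h' h, le_rfl⟩

theorem T_iter_le (j n : ℕ) : ((T^[j] n : ℕ) : ℝ) ≤ G j n ^ 2 * n + ((3 / 2) ^ j - 1) := by
  induction j with
  | zero => simp [G]
  | succ j ih =>
    rw [Function.iterate_succ_apply', G_succ']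
    set m := T^[j] n with hm
    obtain ⟨h1, h1', h2⟩ := g_sq_le m
    have h3 : 0 ≤ g m ^ 2 := sq_nonneg _
    have h4 : (1 : ℝ) ≤ (3 / 2) ^ j := one_le_pow₀ (by norm_num)
    have h5 : g m ^ 2 * m ≤ g m ^ 2 * (G j n ^ 2 * n + ((3 / 2) ^ j - 1)) :=
      mul_le_mul_of_nonneg_left ih h3
    have h6 : g m ^ 2 * ((3 / 2 : ℝ) ^ j - 1) ≤ 3 / 2 * ((3 / 2) ^ j - 1) :=
      mul_le_mul_of_nonneg_right h2 (by linarith)
    calc ((T m : ℕ) : ℝ) ≤ g m ^ 2 * m + 1 / 2 := h1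
      _ ≤ (G j n * g m) ^ 2 * n + ((3 / 2) ^ (j + 1) - 1) := by
        rw [pow_succ (3 / 2 : ℝ) j, mul_pow]
        linarith

theorem first_phase (J n : ℕ) (D : ℝ) (hD : W J n ≤ D) :
    ∑ i ∈ range (J + 1), ((T^[i] n : ℕ) : ℝ) ^ 2 ≤ 2 * D ^ 4 * (n : ℝ) ^ 2 + 4 * (9 / 4) ^ J := by
  have hD0 : 0 ≤ D := (W_nonneg J n).trans hD
  have h1 : ∀ i ∈ range (J + 1), ((T^[i] n : ℕ) : ℝ) ^ 2 ≤
      2 * (G i n ^ 4 * (n : ℝ) ^ 2) + 2 * (9 / 4) ^ i := by
    intro i _
    have h2 := T_iter_le i n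
    have h3 : (0 : ℝ) ≤ ((T^[i] n : ℕ) : ℝ) := Nat.cast_nonneg _
    have h4 : ((T^[i] n : ℕ) : ℝ) ≤ G i n ^ 2 * n + (3 / 2) ^ i := by linarith
    have h5 : ((T^[i] n : ℕ) : ℝ) ^ 2 ≤ (G i n ^ 2 * n + (3 / 2) ^ i) ^ 2 :=
      pow_le_pow_left₀ h3 h4 2
    have h6 : ((3 / 2 : ℝ) ^ i) ^ 2 = (9 / 4) ^ i := by rw [← pow_mul, mul_comm, pow_mul]; norm_num
    have h7 : (G i n ^ 2 * n + (3 / 2) ^ i) ^ 2 ≤ 2 * (G i n ^ 2 * n) ^ 2 + 2 * ((3 / 2) ^ i) ^ 2 := by
      nlinarith [sq_nonneg (G i n ^ 2 * n - (3 / 2) ^ i)]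
    calc _ ≤ _ := h5
      _ ≤ _ := h7
      _ = _ := by rw [h6]; ring
  refine (sum_le_sum h1).trans ?_
  rw [sum_add_distrib, ← mul_sum, ← sum_mul, ← mul_sum]
  have h2 : ∑ i ∈ range (J + 1), G i n ^ 4 ≤ D ^ 4 := by
    have h3 : ∀ s : Finset ℕ, ∑ i ∈ s, G i n ^ 4 ≤ (∑ i ∈ s, G i n) ^ 4 := by
      intro s
      induction s using Finset.induction_on with
      | empty => simp
      | insert a s ha ih =>
        rw [sum_insert ha, sum_insert ha]
        have ha0 := G_nonneg a n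
        have hs0 : 0 ≤ ∑ i ∈ s, G i n := sum_nonneg fun _ _ => G_nonneg _ _
        refine (add_le_add_right ih _).trans ?_
        set x := G a n
        set y := ∑ i ∈ s, G i n
        have : (x + y) ^ 4 = x ^ 4 + y ^ 4 + (4 * x ^ 3 * y + 6 * x ^ 2 * y ^ 2 + 4 * x * y ^ 3) := by
          ring
        rw [this]
        have : 0 ≤ 4 * x ^ 3 * y + 6 * x ^ 2 * y ^ 2 + 4 * x * y ^ 3 := by positivity
        linarith
    refine (h3 _).trans ?_
    exact pow_le_pow_left₀ (W_nonneg J n) hD 4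
  have h3 : ∑ i ∈ range (J + 1), (9 / 4 : ℝ) ^ i ≤ 2 * (9 / 4) ^ J := by
    have h4 := geom_sum_eq (show (9 / 4 : ℝ) ≠ 1 by norm_num) (J + 1)
    rw [h4, div_le_iff₀ (by norm_num), pow_succ]
    have := pow_pos (show (0 : ℝ) < 9 / 4 by norm_num) J
    linarith
  have h4 : (∑ i ∈ range (J + 1), G i n ^ 4) * (n : ℝ) ^ 2 ≤ D ^ 4 * (n : ℝ) ^ 2 :=
    mul_le_mul_of_nonneg_right h2 (sq_nonneg _)
  linarith

end Pool.Agent.H355R2.Chamb
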