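import Pool.Agent.H363R2.Sharp
import Pool.Agent.H319R2.LlnFinal
import Pool.Agent.H355R2.Chamb.Cher

set_option autoImplicit false

/-! A positive proportion of the integers reach `1` along an orbit with bounded square sum. -/

namespace Pool.Agent.H355R2.Chamb

open Finset Filter
open Pool.Agent.H319R2.Lln (mu Prof)

theorem T_eq1 : Pool.Agent.Helper894.Collatz.T = T := rfl
theorem T_eq2 : Pool.Agent.H363R2.TN = T := rfl

theorem mu_gt : 0.1427 < mu := by
  have h1 := Pool.Agent.H319R2.Lln.mu_lower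
  have h2 := Real.log_two_gt_d9
  norm_num at h2 ⊢
  linarith

theorem tail_bound (n t m0 : ℕ) (L lY : ℝ) (hn : 1 ≤ n) (hL0 : 0 ≤ L)
    (hY : Real.log (T^[m0] n : ℕ) ≤ lY)
    (hprof : ∀ m ≤ m0, |Real.log (T^[m] n : ℕ) - L + mu * m| ≤ 1 / 100 * L)
    (ht : |(t : ℝ) - 2 / Real.log (4 / 3) * L| ≤ 1 / 10 * L) (hlY : 6 * lY ≤ 3 / 5 * L)
    (i : ℕ) (hi : i ≤ t) (hiL : L ≤ i) : Real.log (T^[i] n : ℕ) ≤ 9 / 10 * L := by
  have hmu := mu_gt
  by_cases him : i ≤ m0
  · have h1 := (abs_le.1 (hprof i him)).2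
    have h2 : mu * L ≤ mu * i := mul_le_mul_of_nonneg_left hiL (by linarith)
    nlinarith
  · rw [not_le] at him
    have h1 := (abs_le.1 (hprof m0 le_rfl)).1
    have h2 := (abs_le.1 ht).2
    have h3 : 2 / Real.log (4 / 3) = 1 / mu := by unfold mu; field_simp
    rw [h3] at h2
    have h4 : mu * t ≤ L + 1 / 10 * mu * L := by
      have h5 : (t : ℝ) ≤ 1 / mu * L + 1 / 10 * L := by linarith
      calc mu * t ≤ mu * (1 / mu * L + 1 / 10 * L) := mul_le_mul_of_nonneg_left h5 (by linarith)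
        _ = _ := by field_simp
    have h6 : mu * ((i : ℝ) - m0) ≤ (1 / 100 + 1 / 10 * mu) * L + lY := by
      have : (i : ℝ) ≤ t := by exact_mod_cast hi
      have : mu * (i : ℝ) ≤ mu * t := mul_le_mul_of_nonneg_left this (by linarith)
      nlinarith
    have h7 : ((T^[i] n : ℕ) : ℝ) ≤ 2 ^ (i - m0) * (T^[m0] n : ℕ) := by
      have h8 := (Pool.Agent.H363R2.TN_le (i - m0) (T^[m0] n) (T_iter_pos hn m0)).1
      rw [T_eq2, ← Function.iterate_add_apply, Nat.sub_add_cancel him.le] at h8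
      exact_mod_cast h8
    have hp1 : (0 : ℝ) < ((T^[i] n : ℕ) : ℝ) := by exact_mod_cast T_iter_pos hn i
    have hp2 : (0 : ℝ) < ((T^[m0] n : ℕ) : ℝ) := by exact_mod_cast T_iter_pos hn m0
    have h9 : Real.log (T^[i] n : ℕ) ≤ ((i : ℝ) - m0) * Real.log 2 + Real.log (T^[m0] n : ℕ) := by
      have h10 := Real.log_le_log hp1 h7
      rw [Real.log_mul (by positivity) hp2.ne', Real.log_pow, Nat.cast_sub him.le] at h10
      exact h10
    have hl2 : 0 < Real.log 2 := Real.log_pos (by norm_num)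
    have hl2' := Real.log_two_lt_d9
    have h11 : Real.log 2 ≤ 34 / 7 * mu := by
      have := Pool.Agent.H319R2.Lln.mu_lower; linarith
    have h12 : 0 ≤ (i : ℝ) - m0 := by
      have : (m0 : ℝ) ≤ i := by exact_mod_cast him.le
      linarith
    have h13 : ((i : ℝ) - m0) * Real.log 2 ≤ 34 / 7 * ((1 / 100 + 1 / 10 * mu) * L + lY) := by
      calc ((i : ℝ) - m0) * Real.log 2 ≤ ((i : ℝ) - m0) * (34 / 7 * mu) :=
            mul_le_mul_of_nonneg_left h11 h12
        _ = 34 / 7 * (mu * ((i : ℝ) - m0)) := by ring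
        _ ≤ _ := mul_le_mul_of_nonneg_left h6 (by norm_num)
    have h14 : mu ≤ 0.15 := by
      have h15 := Pool.Agent.H319R2.Lln.mu_upper
      norm_num at hl2' ⊢
      linarith
    have h16 : mu * L ≤ 0.15 * L := mul_le_mul_of_nonneg_right h14 hL0
    have hlY0 : 0 ≤ lY := le_trans (Real.log_nonneg (by exact_mod_cast T_iter_pos hn m0)) hY
    nlinarith

theorem t_le (t : ℕ) (L : ℝ) (hL0 : 0 ≤ L)
    (ht : |(t : ℝ) - 2 / Real.log (4 / 3) * L| ≤ 1 / 10 * L) : (t : ℝ) ≤ 8 * L := by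
  have hmu := mu_gt
  have h2 := (abs_le.1 ht).2
  have h3 : 2 / Real.log (4 / 3) = 1 / mu := by unfold mu; field_simp
  rw [h3] at h2
  have h4 : 1 / mu ≤ 7.1 := by
    rw [div_le_iff₀ (by linarith)]
    linarith
  nlinarith [mul_le_mul_of_nonneg_right h4 hL0]

theorem sum_tail (n t m0 J : ℕ) (L lY : ℝ) (hn : 1 ≤ n) (hL : L = Real.log n) (hL0 : 0 ≤ L)
    (hY : Real.log (T^[m0] n : ℕ) ≤ lY)
    (hprof : ∀ m ≤ m0, |Real.log (T^[m] n : ℕ) - L + mu * m| ≤ 1 / 100 * L)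
    (ht : |(t : ℝ) - 2 / Real.log (4 / 3) * L| ≤ 1 / 10 * L) (hlY : 6 * lY ≤ 3 / 5 * L)
    (hJ : L ≤ J + 1) (hbig : 8 * L ≤ Real.exp (L / 5)) :
    ∑ i ∈ range (t + 1), ((T^[i] n : ℕ) : ℝ) ^ 2 ≤
      ∑ i ∈ range (J + 1), ((T^[i] n : ℕ) : ℝ) ^ 2 + (n : ℝ) ^ 2 := by
  have hsub : range (t + 1) ⊆ range (J + 1) ∪ Ico (J + 1) (t + 1) := by
    intro i hi
    rw [mem_union, mem_range, mem_Ico]
    rw [mem_range] at hi
    omega
  have hdisj : Disjoint (range (J + 1)) (Ico (J + 1) (t + 1)) := by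
    rw [Finset.disjoint_left]
    intro i hi hi2
    rw [mem_range] at hi
    rw [mem_Ico] at hi2
    omega
  have h1 : ∑ i ∈ range (t + 1), ((T^[i] n : ℕ) : ℝ) ^ 2 ≤
      ∑ i ∈ range (J + 1) ∪ Ico (J + 1) (t + 1), ((T^[i] n : ℕ) : ℝ) ^ 2 :=
    sum_le_sum_of_subset_of_nonneg hsub fun _ _ _ => sq_nonneg _
  rw [sum_union hdisj] at h1
  refine h1.trans (add_le_add le_rfl ?_)
  have h2 : ∀ i ∈ Ico (J + 1) (t + 1), ((T^[i] n : ℕ) : ℝ) ^ 2 ≤ Real.exp (9 / 5 * L) := by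
    intro i hi
    rw [mem_Ico] at hi
    have h3 := tail_bound n t m0 L lY hn hL0 hY hprof ht hlY i (by omega) (by
      have : ((J + 1 : ℕ) : ℝ) ≤ i := by exact_mod_cast hi.1
      push_cast at this; linarith)
    have hp1 : (0 : ℝ) < ((T^[i] n : ℕ) : ℝ) := by exact_mod_cast T_iter_pos hn i
    calc ((T^[i] n : ℕ) : ℝ) ^ 2 = Real.exp (2 * Real.log (T^[i] n : ℕ)) := by
          rw [two_mul, Real.exp_add, Real.exp_log hp1]; ring
      _ ≤ _ := Real.exp_le_exp.2 (by linarith)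
  refine (sum_le_sum h2).trans ?_
  rw [sum_const, Nat.card_Ico, nsmul_eq_mul]
  have h3 : ((t + 1 - (J + 1) : ℕ) : ℝ) ≤ 8 * L := by
    refine le_trans ?_ (t_le t L hL0 ht)
    exact_mod_cast (by omega : t + 1 - (J + 1) ≤ t)
  have hnR : (0 : ℝ) < n := by exact_mod_cast hn
  calc ((t + 1 - (J + 1) : ℕ) : ℝ) * Real.exp (9 / 5 * L) ≤ Real.exp (L / 5) * Real.exp (9 / 5 * L) :=
        mul_le_mul_of_nonneg_right (h3.trans hbig) (Real.exp_pos _).le
    _ = Real.exp (L + L) := by rw [← Real.exp_add]; congr 1; ring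
    _ = (n : ℝ) ^ 2 := by rw [Real.exp_add, hL, Real.exp_log hnR]; ring

theorem ev_exp : ∃ L0 : ℝ, ∀ L : ℝ, L0 ≤ L → 8 * L ≤ Real.exp (L / 5) := by
  have h := (Real.tendsto_exp_div_pow_atTop 1)
  have h2 := h.eventually_ge_atTop 40
  rw [eventually_atTop] at h2
  obtain ⟨a, ha⟩ := h2
  refine ⟨max (5 * a) 5, fun L hL => ?_⟩
  have h3 := ha (L / 5) (by have := le_max_left (5 * a) 5; linarith)
  have h4 : 0 < L / 5 := by have := le_max_right (5 * a) 5; linarith
  rw [pow_one, le_div_iff₀ h4] at h3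
  linarith

theorem dens : ∃ δ : ℝ, 0 < δ ∧ ∃ Λ : ℝ, 1 ≤ Λ ∧ ∃ X0 : ℝ, ∀ X : ℝ, X0 ≤ X →
    ∃ S : Finset ℕ, (∀ n ∈ S, 1 ≤ n ∧ (n : ℝ) ≤ X ∧ ∃ t : ℕ, T^[t] n = 1 ∧
      ∑ i ∈ range (t + 1), ((T^[i] n : ℕ) : ℝ) ^ 2 ≤ Λ * (n : ℝ) ^ 2) ∧ δ * X ≤ S.card := by
  classical
  obtain ⟨c, hc, X1, hsharp⟩ := Pool.Agent.H363R2.sharp (1 / 10) (by norm_num)
  obtain ⟨B, hB, hlln⟩ := Pool.Agent.H319R2.Lln.lln (1 / 100) 1 (by norm_num) (by norm_num)
  have hth := th_lt
  set D : ℝ := 16 / ((1 - th) * c) with hD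
  have hD0 : 0 < D := by
    have : 0 < (1 - th) * c := mul_pos (by linarith) hc
    positivity
  obtain ⟨L0, hL0⟩ := ev_exp
  -- eventual conditions
  have hlog : Tendsto Real.log atTop atTop := Real.tendsto_log_atTop
  have e1 : ∀ᶠ X : ℝ in atTop, X / Real.log X ^ (1 : ℝ) + Real.log X ^ 4 ≤ c / 4 * X := by
    have h1 : ∀ᶠ X : ℝ in atTop, 8 / c ≤ Real.log X := hlog.eventually_ge_atTop _
    have h2 : ∀ᶠ X : ℝ in atTop, ‖Real.log X ^ 4‖ ≤ c / 8 * ‖X‖ :=
      (Real.isLittleO_pow_log_id_atTop (n := 4)).bound (by positivity)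
    filter_upwards [h1, h2, eventually_gt_atTop 1] with X h1 h2 h3
    rw [Real.norm_eq_abs, Real.norm_eq_abs, abs_of_pos (by linarith : (0 : ℝ) < X)] at h2
    have h4 := le_trans (le_abs_self _) h2
    have h5 : 0 < Real.log X := Real.log_pos h3
    rw [Real.rpow_one]
    have h6 : X / Real.log X ≤ c / 8 * X := by
      rw [div_le_iff₀ h5]
      rw [div_le_iff₀ hc] at h1
      nlinarith
    linarith
  have e2 : ∀ᶠ X : ℝ in atTop, 6 * (B * Real.log (Real.log X)) ≤ 3 / 5 * (Real.log c + Real.log X) := by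
    have h1 : ∀ᶠ Z : ℝ in atTop, ‖Real.log Z‖ ≤ 1 / (20 * B) * ‖Z‖ :=
      Real.isLittleO_log_id_atTop.bound (by positivity)
    have h2 : ∀ᶠ Z : ℝ in atTop, 2 * |Real.log c| ≤ Z := eventually_ge_atTop _
    have h3 := hlog.eventually (h1.and (h2.and (eventually_ge_atTop 1)))
    filter_upwards [h3] with X h3
    obtain ⟨h3, h4, h5⟩ := h3
    rw [Real.norm_eq_abs, Real.norm_eq_abs, abs_of_pos (by linarith : (0 : ℝ) < Real.log X)] at h3
    have h6 := le_trans (le_abs_self _) h3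
    have h7 : B * Real.log (Real.log X) ≤ 1 / 20 * Real.log X := by
      calc B * Real.log (Real.log X) ≤ B * (1 / (20 * B) * Real.log X) :=
            mul_le_mul_of_nonneg_left h6 hB.le
        _ = _ := by field_simp
    have h8 := neg_abs_le (Real.log c)
    linarith
  have e3 : ∀ᶠ X : ℝ in atTop, max L0 0 ≤ Real.log c + Real.log X := by
    have := hlog.eventually_ge_atTop (max L0 0 - Real.log c)
    filter_upwards [this] with X h
    linarith
  have hall := e1.and (e2.and (e3.and (hlln.and ((eventually_ge_atTop X1).and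
    (eventually_ge_atTop (max 1 (4 / c ^ 2)))))))
  rw [eventually_atTop] at hall
  obtain ⟨X0, hX0⟩ := hall
  refine ⟨c / 2, by positivity, 2 * D ^ 4 + 2, by nlinarith [pow_pos hD0 4], X0, fun X hX => ?_⟩
  obtain ⟨g1, g2, g3, g4, g5, g6⟩ := hX0 X hX
  have hX1 : 1 ≤ X := (le_max_left _ _).trans g6
  have hXc : 4 / c ^ 2 ≤ X := (le_max_right _ _).trans g6
  have hXpos : 0 < X := by linarith
  obtain ⟨S, hS, hcard⟩ := hsharp X g5
  set J : ℕ := ⌊Real.log X⌋₊ with hJ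
  have hlX : 0 ≤ Real.log X := Real.log_nonneg hX1
  have hJle : (J : ℝ) ≤ Real.log X := Nat.floor_le hlX
  have hJlt : Real.log X < J + 1 := Nat.lt_floor_add_one _
  set N : ℕ := ⌊X⌋₊ + 1 with hN
  have hNX : (N : ℝ) ≤ 2 * X := by
    rw [hN]; push_cast
    have := Nat.floor_le hXpos.le
    linarith
  have hexpJ : Real.exp J ≤ X := by
    calc Real.exp J ≤ Real.exp (Real.log X) := Real.exp_le_exp.2 hJle
      _ = X := Real.exp_log hXpos
  have h2J : 2 ^ J ≤ N := by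
    have h1 : (2 : ℝ) ^ J ≤ X := by
      calc (2 : ℝ) ^ J ≤ (Real.exp 1) ^ J :=
            pow_le_pow_left₀ (by norm_num) (by have := Real.add_one_le_exp (1 : ℝ); linarith) J
        _ = Real.exp J := by rw [← Real.exp_nat_mul]; ring_nf
        _ ≤ X := hexpJ
    have h2 : ((2 ^ J : ℕ) : ℝ) ≤ X := by push_cast; exact h1
    have h3 := Nat.le_floor h2
    omega
  set P : ℕ → Prop := fun n => Prof (1 / 100) (Real.log X ^ B) (X ^ 2) n with hP
  set S' := S.filter (fun n => P n ∧ W J n ≤ D) with hS'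
  have hcov : S ⊆ S' ∪ (S.filter (fun n => ¬ P n) ∪ (range N).filter (fun n => D < W J n)) := by
    intro n hn
    rw [mem_union, mem_union, hS', mem_filter, mem_filter, mem_filter, mem_range]
    by_cases h1 : P n
    · by_cases h2 : W J n ≤ D
      · left; exact ⟨hn, h1, h2⟩
      · right; right
        refine ⟨?_, not_le.1 h2⟩
        have := (hS n hn).2.2.1
        have := Nat.le_floor this
        omega
    · right; left; exact ⟨hn, h1⟩
  have hc1 : (S.card : ℝ) ≤ S'.card + ((S.filter (fun n => ¬ P n)).card +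
      ((range N).filter (fun n => D < W J n)).card) := by
    have h1 := card_le_card hcov
    have h2 := h1.trans ((card_union_le _ _).trans (Nat.add_le_add_left (card_union_le _ _) _))
    exact_mod_cast h2
  have hc2 : ((S.filter (fun n => ¬ P n)).card : ℝ) ≤ c / 4 * X := by
    have h1 := g4 (X ^ 2) (by nlinarith) (S.filter (fun n => ¬ P n)) (by
      intro n hn
      rw [mem_filter] at hn
      exact ⟨(hS n hn.1).1, (hS n hn.1).2.2.1, hn.2⟩)
    have h2 : X ^ 2 * Real.log X ^ 4 / X ^ 2 = Real.log X ^ 4 := by field_simp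
    rw [h2] at h1
    exact h1.trans g1
  have hc3 : (((range N).filter (fun n => D < W J n)).card : ℝ) ≤ c / 4 * X := by
    refine (card_W J N h2J D hD0).trans ?_
    have hne : (1 - th) ≠ 0 := by linarith
    have h1 : (1 - th) * D = 16 / c := by rw [hD]; field_simp
    rw [h1, div_le_iff₀ (by positivity)]
    have : c / 4 * X * (16 / c) = 4 * X := by field_simp; ring
    rw [this]; linarith
  refine ⟨S', fun n hn => ?_, by linarith⟩
  rw [hS', mem_filter] at hn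
  obtain ⟨hnS, hPn, hWn⟩ := hn
  obtain ⟨a1, a2, a3, t, a4, a5, a6, a7⟩ := hS n hnS
  refine ⟨a1, a3, t, a4, ?_⟩
  obtain ⟨m0, hm0, hprof⟩ := hPn
  have hnR : (0 : ℝ) < n := by exact_mod_cast a1
  have hLlow : Real.log c + Real.log X ≤ Real.log n := by
    rw [← Real.log_mul hc.ne' hXpos.ne']
    exact Real.log_le_log (by positivity) a2
  have hLup : Real.log n ≤ Real.log X := Real.log_le_log hnR a3
  have hLnn : 0 ≤ Real.log (n : ℝ) := Real.log_natCast_nonneg n
  have hYlog : Real.log (T^[m0] n : ℕ) ≤ B * Real.log (Real.log X) := by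
    have hp2 : (0 : ℝ) < ((T^[m0] n : ℕ) : ℝ) := by exact_mod_cast T_iter_pos a1 m0
    have h1 : ((T^[m0] n : ℕ) : ℝ) ≤ Real.log X ^ B := hm0
    have h2 := Real.log_le_log hp2 h1
    have hlX0 : 0 < Real.log X := by
      by_contra hneg
      have h0 : Real.log X = 0 := le_antisymm (not_lt.1 hneg) hlX
      rw [h0, Real.zero_rpow hB.ne'] at h1
      linarith
    rwa [Real.log_rpow hlX0] at h2
  have key := sum_tail n t m0 J (Real.log n) (B * Real.log (Real.log X)) a1 rfl hLnn hYlog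
    (fun m hm => (hprof m hm).1) a6 (by linarith) (by linarith)
    (hL0 _ (by have := le_max_left L0 0; linarith))
  refine key.trans ?_
  have h1 := first_phase J n D hWn
  have h2 : 4 * (9 / 4 : ℝ) ^ J ≤ (n : ℝ) ^ 2 := by
    have h3 : (9 / 4 : ℝ) ^ J ≤ X := by
      calc (9 / 4 : ℝ) ^ J ≤ (Real.exp 1) ^ J :=
            pow_le_pow_left₀ (by norm_num) (by have := Real.exp_one_gt_d9; linarith) J
        _ = Real.exp J := by rw [← Real.exp_nat_mul]; ring_nf
        _ ≤ X := hexpJ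
    have h4 : 4 * X ≤ (c * X) ^ 2 := by
      rw [div_le_iff₀ (by positivity)] at hXc
      nlinarith
    have h5 : (c * X) ^ 2 ≤ (n : ℝ) ^ 2 := pow_le_pow_left₀ (by positivity) a2 2
    linarith
  nlinarith

end Pool.Agent.H355R2.Chamb
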