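import Mathlib

set_option autoImplicit false

/-! Real dynamics of `f x = x + 1/4 - (2 x + 1)/4 cos (π x)` near integers. -/

namespace Pool.Agent.H355R2.Chamb

open Filter Topology

/-- the accelerated `3x+1` map -/
def T (m : ℕ) : ℕ := if m % 2 = 0 then m / 2 else (3 * m + 1) / 2

/-- the real analytic extension -/
noncomputable def f (x : ℝ) : ℝ := x + 1 / 4 - (2 * x + 1) / 4 * Real.cos (Real.pi * x)

theorem T_even (m : ℕ) (h : m % 2 = 0) : ((T m : ℕ) : ℝ) = m / 2 := by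
  have h1 : 2 * T m = m := by unfold T; rw [if_pos h]; omega
  have h2 : (2 : ℝ) * (T m : ℝ) = m := by exact_mod_cast h1
  linarith

theorem T_odd (m : ℕ) (h : m % 2 ≠ 0) : ((T m : ℕ) : ℝ) = (3 * m + 1) / 2 := by
  have h1 : 2 * T m = 3 * m + 1 := by unfold T; rw [if_neg h]; omega
  have h2 : (2 : ℝ) * (T m : ℝ) = 3 * m + 1 := by exact_mod_cast h1
  linarith

theorem T_pos {m : ℕ} (h : 1 ≤ m) : 1 ≤ T m := by
  unfold T; split_ifs <;> omega

theorem T_iter_pos {m : ℕ} (h : 1 ≤ m) (j : ℕ) : 1 ≤ T^[j] m := by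
  induction j with
  | zero => simpa using h
  | succ j ih => rw [Function.iterate_succ_apply']; exact T_pos ih

theorem cos_shift_even (n : ℕ) (h : n % 2 = 0) (e : ℝ) :
    Real.cos (Real.pi * (n + e)) = Real.cos (Real.pi * e) := by
  obtain ⟨k, rfl⟩ : ∃ k, n = 2 * k := ⟨n / 2, by omega⟩
  have : Real.pi * (((2 * k : ℕ) : ℝ) + e) = Real.pi * e + k * (2 * Real.pi) := by push_cast; ring
  rw [this, Real.cos_add_nat_mul_two_pi]

theorem sin_shift_even (n : ℕ) (h : n % 2 = 0) (e : ℝ) :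
    Real.sin (Real.pi * (n + e)) = Real.sin (Real.pi * e) := by
  obtain ⟨k, rfl⟩ : ∃ k, n = 2 * k := ⟨n / 2, by omega⟩
  have : Real.pi * (((2 * k : ℕ) : ℝ) + e) = Real.pi * e + k * (2 * Real.pi) := by push_cast; ring
  rw [this, Real.sin_add_nat_mul_two_pi]

theorem cos_shift_odd (n : ℕ) (h : n % 2 ≠ 0) (e : ℝ) :
    Real.cos (Real.pi * (n + e)) = -Real.cos (Real.pi * e) := by
  obtain ⟨k, rfl⟩ : ∃ k, n = 2 * k + 1 := ⟨n / 2, by omega⟩
  have : Real.pi * (((2 * k + 1 : ℕ) : ℝ) + e) = Real.pi * e + Real.pi + k * (2 * Real.pi) := by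
    push_cast; ring
  rw [this, Real.cos_add_nat_mul_two_pi, Real.cos_add_pi]

theorem one_sub_cos_le (e : ℝ) : 1 - Real.cos (Real.pi * e) ≤ 5 * e ^ 2 := by
  have h1 := Real.one_sub_sq_div_two_le_cos (x := Real.pi * e)
  have h2 : Real.pi ^ 2 ≤ 10 := by nlinarith [Real.pi_lt_d2, Real.pi_pos]
  nlinarith [mul_le_mul_of_nonneg_right h2 (sq_nonneg e)]

/-- one step of the deviation from an integer -/
theorem step_even (n : ℕ) (h : n % 2 = 0) (e : ℝ) (he : |e| ≤ 1 / 2) :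
    |f (n + e) - T n| ≤ 1 / 2 * |e| + 5 / 2 * (n + 1) * e ^ 2 := by
  have h1 := one_sub_cos_le e
  have h2 := Real.cos_le_one (Real.pi * e)
  set c := Real.cos (Real.pi * e) with hc
  have h3 : f (n + e) - T n = e / 2 + (2 * n + 2 * e + 1) / 4 * (1 - c) := by
    rw [T_even n h]; unfold f; rw [cos_shift_even n h]; rw [← hc]; ring
  rw [h3]
  have hn : (0 : ℝ) ≤ n := Nat.cast_nonneg n
  have he' := abs_le.1 he
  have h4 : |(2 * n + 2 * e + 1) / 4 * (1 - c)| ≤ 5 / 2 * (n + 1) * e ^ 2 := by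
    rw [abs_of_nonneg (mul_nonneg (by linarith [he'.1]) (by linarith))]
    calc (2 * n + 2 * e + 1) / 4 * (1 - c) ≤ (n + 1) / 2 * (5 * e ^ 2) :=
          mul_le_mul (by linarith [he'.2]) h1 (by linarith) (by linarith)
      _ = _ := by ring
  calc |e / 2 + (2 * n + 2 * e + 1) / 4 * (1 - c)| ≤ |e / 2| + |(2 * n + 2 * e + 1) / 4 * (1 - c)| :=
        abs_add_le _ _
    _ ≤ 1 / 2 * |e| + 5 / 2 * (n + 1) * e ^ 2 := by
        refine add_le_add (le_of_eq ?_) h4
        rw [abs_div, abs_of_pos (show (0 : ℝ) < 2 by norm_num)]; ring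

theorem step_odd (n : ℕ) (h : n % 2 ≠ 0) (e : ℝ) (he : |e| ≤ 1 / 2) :
    |f (n + e) - T n| ≤ 3 / 2 * |e| + 5 / 2 * (n + 1) * e ^ 2 := by
  have h1 := one_sub_cos_le e
  have h2 := Real.cos_le_one (Real.pi * e)
  set c := Real.cos (Real.pi * e) with hc
  have h3 : f (n + e) - T n = 3 * e / 2 - (2 * n + 2 * e + 1) / 4 * (1 - c) := by
    rw [T_odd n h]; unfold f; rw [cos_shift_odd n h]; rw [← hc]; ring
  rw [h3]
  have hn : (0 : ℝ) ≤ n := Nat.cast_nonneg n
  have he' := abs_le.1 he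
  have h4 : |(2 * n + 2 * e + 1) / 4 * (1 - c)| ≤ 5 / 2 * (n + 1) * e ^ 2 := by
    rw [abs_of_nonneg (mul_nonneg (by linarith [he'.1]) (by linarith))]
    calc (2 * n + 2 * e + 1) / 4 * (1 - c) ≤ (n + 1) / 2 * (5 * e ^ 2) :=
          mul_le_mul (by linarith [he'.2]) h1 (by linarith) (by linarith)
      _ = _ := by ring
  calc |3 * e / 2 - (2 * n + 2 * e + 1) / 4 * (1 - c)| ≤
        |3 * e / 2| + |(2 * n + 2 * e + 1) / 4 * (1 - c)| := abs_sub _ _
    _ ≤ 3 / 2 * |e| + 5 / 2 * (n + 1) * e ^ 2 := by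
        refine add_le_add (le_of_eq ?_) h4
        rw [abs_div, abs_mul, abs_of_pos (show (0 : ℝ) < 2 by norm_num),
          abs_of_pos (show (0 : ℝ) < 3 by norm_num)]; ring

/-- general step: the relative deviation is almost preserved -/
theorem step_rel (m : ℕ) (hm : 1 ≤ m) (e : ℝ) (he : |e| ≤ 1 / 2) :
    |f (m + e) - T m| ≤ (T m : ℝ) / m * |e| * (1 + 10 * m * |e|) := by
  have hmR : (1 : ℝ) ≤ m := by exact_mod_cast hm
  have ha := abs_nonneg e
  have hsq : e ^ 2 = |e| ^ 2 := (sq_abs e).symm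
  by_cases h : m % 2 = 0
  · have h1 := step_even m h e he
    have h2 : (T m : ℝ) / m = 1 / 2 := by rw [T_even m h]; field_simp
    rw [h2]
    refine h1.trans ?_
    rw [hsq]
    nlinarith [mul_nonneg ha ha, mul_nonneg (mul_nonneg ha ha) (sub_nonneg.2 hmR)]
  · have h1 := step_odd m h e he
    have h2 : 3 / 2 ≤ (T m : ℝ) / m := by
      rw [T_odd m h, le_div_iff₀ (by linarith)]; linarith
    refine h1.trans ?_
    rw [hsq]
    have h3 : 3 / 2 * |e| * (1 + 10 * m * |e|) ≤ (T m : ℝ) / m * |e| * (1 + 10 * m * |e|) := by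
      gcongr
    refine le_trans ?_ h3
    nlinarith [mul_nonneg ha ha, mul_nonneg (mul_nonneg ha ha) (sub_nonneg.2 hmR)]

/-- shadowing of an integer orbit -/
theorem shadow (n : ℕ) (hn : 1 ≤ n) (e r : ℝ) (hr : 0 ≤ r) (he : |e| ≤ r * n) (t : ℕ)
    (hsum : 40 * r * ∑ i ∈ Finset.range (t + 1), ((T^[i] n : ℕ) : ℝ) ^ 2 ≤ 1) :
    ∀ j ≤ t, |f^[j] (n + e) - (T^[j] n : ℕ)| ≤
      r * (T^[j] n : ℕ) * Real.exp (20 * r * ∑ i ∈ Finset.range j, ((T^[i] n : ℕ) : ℝ) ^ 2) := by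
  intro j
  induction j with
  | zero => intro _; simpa using he
  | succ j ih =>
    intro hj
    have ih := ih (by omega)
    set m := T^[j] n with hm
    have hm1 : 1 ≤ m := T_iter_pos hn j
    have hmR : (1 : ℝ) ≤ (m : ℝ) := by exact_mod_cast hm1
    set d := f^[j] (n + e) - m with hd
    set E := Real.exp (20 * r * ∑ i ∈ Finset.range j, ((T^[i] n : ℕ) : ℝ) ^ 2) with hE
    have hmono : ∀ k ≤ t + 1, 20 * r * ∑ i ∈ Finset.range k, ((T^[i] n : ℕ) : ℝ) ^ 2 ≤ 1 / 2 := by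
      intro k hk
      have : ∑ i ∈ Finset.range k, ((T^[i] n : ℕ) : ℝ) ^ 2 ≤
          ∑ i ∈ Finset.range (t + 1), ((T^[i] n : ℕ) : ℝ) ^ 2 :=
        Finset.sum_le_sum_of_subset_of_nonneg (Finset.range_mono hk) (fun _ _ _ => sq_nonneg _)
      nlinarith
    have hE2 : E ≤ 2 := by
      calc E ≤ Real.exp (1 / 2) := Real.exp_le_exp.2 (hmono j (by omega))
        _ ≤ 2 := by
          have h1 : Real.exp (1 / 2) ^ 2 = Real.exp 1 := by rw [← Real.exp_nat_mul]; norm_num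
          have h2 := Real.exp_one_lt_d9
          nlinarith [Real.exp_pos (1 / 2 : ℝ)]
    have hE0 : 0 < E := Real.exp_pos _
    have hm2 : 20 * r * (m : ℝ) ^ 2 ≤ 1 / 2 := by
      have h1 := hmono (j + 1) (by omega)
      rw [Finset.sum_range_succ, ← hm] at h1
      have h2 : 0 ≤ ∑ i ∈ Finset.range j, ((T^[i] n : ℕ) : ℝ) ^ 2 :=
        Finset.sum_nonneg fun _ _ => sq_nonneg _
      nlinarith [mul_nonneg hr h2]
    have hd2 : |d| ≤ 2 * r * m := by
      calc |d| ≤ r * m * E := ih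
        _ ≤ r * m * 2 := mul_le_mul_of_nonneg_left hE2 (by positivity)
        _ = 2 * r * m := by ring
    have hd3 : |d| ≤ 1 / 2 := by
      refine hd2.trans ?_
      have : r * m ≤ r * m ^ 2 := mul_le_mul_of_nonneg_left (by nlinarith) hr
      linarith
    have h1 := step_rel m hm1 d hd3
    have h2 : (m : ℝ) + d = f^[j] (n + e) := by rw [hd]; ring
    rw [h2] at h1
    rw [Function.iterate_succ_apply' f, Function.iterate_succ_apply' T, ← hm]
    refine h1.trans ?_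
    rw [Finset.sum_range_succ, ← hm]
    have h3 : 1 + 10 * m * |d| ≤ Real.exp (20 * r * (m : ℝ) ^ 2) := by
      have h4 : 10 * m * |d| ≤ 20 * r * (m : ℝ) ^ 2 := by
        calc 10 * m * |d| ≤ 10 * m * (2 * r * m) := mul_le_mul_of_nonneg_left hd2 (by positivity)
          _ = _ := by ring
      calc 1 + 10 * m * |d| ≤ 20 * r * (m : ℝ) ^ 2 + 1 := by linarith
        _ ≤ _ := Real.add_one_le_exp _
    calc (T m : ℝ) / m * |d| * (1 + 10 * m * |d|)
        ≤ (T m : ℝ) / m * (r * m * E) * Real.exp (20 * r * (m : ℝ) ^ 2) := by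
          apply mul_le_mul _ h3 (by positivity) (by positivity)
          exact mul_le_mul_of_nonneg_left ih (by positivity)
      _ = r * (T m : ℝ) * (E * Real.exp (20 * r * (m : ℝ) ^ 2)) := by
          field_simp
      _ = _ := by
          rw [hE, ← Real.exp_add]; congr 2; ring

theorem shadow' (n : ℕ) (hn : 1 ≤ n) (e r : ℝ) (hr : 0 ≤ r) (he : |e| ≤ r * n) (t : ℕ)
    (hsum : 40 * r * ∑ i ∈ Finset.range (t + 1), ((T^[i] n : ℕ) : ℝ) ^ 2 ≤ 1) :
    |f^[t] (n + e) - (T^[t] n : ℕ)| ≤ 2 * r * (T^[t] n : ℕ) := by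
  refine (shadow n hn e r hr he t hsum t le_rfl).trans ?_
  have h1 : ∑ i ∈ Finset.range t, ((T^[i] n : ℕ) : ℝ) ^ 2 ≤
      ∑ i ∈ Finset.range (t + 1), ((T^[i] n : ℕ) : ℝ) ^ 2 :=
    Finset.sum_le_sum_of_subset_of_nonneg (Finset.range_mono (by omega)) (fun _ _ _ => sq_nonneg _)
  have h2 : Real.exp (20 * r * ∑ i ∈ Finset.range t, ((T^[i] n : ℕ) : ℝ) ^ 2) ≤ 2 := by
    calc _ ≤ Real.exp (1 / 2) := Real.exp_le_exp.2 (by nlinarith)
      _ ≤ 2 := by
        have h1 : Real.exp (1 / 2) ^ 2 = Real.exp 1 := by rw [← Real.exp_nat_mul]; norm_num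
        have h2 := Real.exp_one_lt_d9
        nlinarith [Real.exp_pos (1 / 2 : ℝ)]
  calc _ ≤ r * (T^[t] n : ℕ) * 2 := mul_le_mul_of_nonneg_left h2 (by positivity)
    _ = _ := by ring

/-! ### the basin of `{1, 2}` -/

theorem basin_step (e : ℝ) (he : |e| ≤ 1 / 100) : |f (f (1 + e)) - 1| ≤ 24 / 25 * |e| := by
  have h1 := step_odd 1 (by norm_num) e (by linarith)
  have hT1 : T 1 = 2 := rfl
  have hT2 : T 2 = 1 := rfl
  rw [hT1] at h1
  push_cast at h1
  set d := f (1 + e) - 2 with hd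
  have ha := abs_nonneg e
  have hsq : e ^ 2 = |e| ^ 2 := (sq_abs e).symm
  have hd1 : |d| ≤ 31 / 20 * |e| := by
    refine h1.trans ?_
    rw [hsq]; nlinarith
  have h2 := step_even 2 (by norm_num) d (by linarith)
  rw [hT2] at h2
  push_cast at h2
  have h3 : (2 : ℝ) + d = f (1 + e) := by rw [hd]; ring
  rw [h3] at h2
  refine h2.trans ?_
  have hb := abs_nonneg d
  have hsq2 : d ^ 2 = |d| ^ 2 := (sq_abs d).symm
  rw [hsq2]
  have hd4 : |d| ≤ 31 / 2000 := by linarith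
  have hd5 : |d| ^ 2 ≤ 31 / 2000 * |d| := by nlinarith
  nlinarith

theorem basin (e : ℝ) (he : |e| ≤ 1 / 100) :
    Tendsto (fun j : ℕ => f^[2 * j] (1 + e)) atTop (𝓝 1) := by
  have h1 : ∀ j : ℕ, |f^[2 * j] (1 + e) - 1| ≤ (24 / 25) ^ j * |e| := by
    intro j
    induction j with
    | zero => simp
    | succ j ih =>
      have h2 : f^[2 * (j + 1)] (1 + e) = f (f (f^[2 * j] (1 + e))) := by
        rw [show 2 * (j + 1) = (2 * j) + 1 + 1 by ring, Function.iterate_succ_apply',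
          Function.iterate_succ_apply']
      rw [h2]
      set d := f^[2 * j] (1 + e) - 1 with hd
      have h3 : f^[2 * j] (1 + e) = 1 + d := by rw [hd]; ring
      rw [h3]
      have h4 : |d| ≤ 1 / 100 := by
        refine ih.trans ?_
        calc (24 / 25 : ℝ) ^ j * |e| ≤ 1 * |e| :=
              mul_le_mul_of_nonneg_right (pow_le_one₀ (by norm_num) (by norm_num)) (abs_nonneg e)
          _ ≤ 1 / 100 := by linarith
      calc |f (f (1 + d)) - 1| ≤ 24 / 25 * |d| := basin_step d h4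
        _ ≤ 24 / 25 * ((24 / 25) ^ j * |e|) := by linarith
        _ = _ := by ring
  rw [tendsto_iff_norm_sub_tendsto_zero]
  refine squeeze_zero (fun _ => norm_nonneg _) (fun j => ?_) (g := fun j : ℕ => (24 / 25 : ℝ) ^ j * |e|) ?_
  · rw [Real.norm_eq_abs]; exact h1 j
  · have := (tendsto_pow_atTop_nhds_zero_of_lt_one (r := (24 / 25 : ℝ)) (by norm_num) (by norm_num)).mul_const |e|
    simpa using this

/-! ### contraction along even steps -/

theorem even_phase_aux (K : ℕ) : ∀ (m : ℕ) (_ : 1 ≤ m) (e b : ℝ) (_ : b ≤ 1 / 3)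
    (_ : |e| * (2 ^ K * m : ℕ) ≤ b),
    |f^[K] ((2 ^ K * m : ℕ) + e) - m| * m ≤ (7 / 8) ^ K * b := by
  induction K with
  | zero => intro m _ e b _ he; simpa using he
  | succ K ih =>
    intro m hm e b hb he
    set n := 2 ^ (K + 1) * m with hn
    have hn2 : n = 2 * (2 ^ K * m) := by rw [hn]; ring
    have hpos : 1 ≤ 2 ^ K * m := Nat.mul_pos (by positivity) hm
    have hnR : (2 : ℝ) ≤ (n : ℝ) := by
      have : 2 ≤ n := by omega
      exact_mod_cast this
    have ha := abs_nonneg e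
    have hsq : e ^ 2 = |e| ^ 2 := (sq_abs e).symm
    have he3 : |e| * n ≤ 1 / 3 := by linarith
    have he2 : |e| ≤ 1 / 6 := by
      have : |e| * 2 ≤ |e| * n := mul_le_mul_of_nonneg_left hnR ha
      linarith
    have h1 := step_even n (by omega) e (by linarith)
    have hT : T n = 2 ^ K * m := by unfold T; rw [if_pos (by omega)]; omega
    rw [hT] at h1
    set e' := f (n + e) - ((2 ^ K * m : ℕ) : ℝ) with he'
    have hnn : ((2 ^ K * m : ℕ) : ℝ) = n / 2 := by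
      have : (n : ℝ) = 2 * ((2 ^ K * m : ℕ) : ℝ) := by rw [hn2]; push_cast; ring
      linarith
    have hsq2 : (n : ℝ) * |e| ^ 2 ≤ 1 / 3 * |e| := by
      calc (n : ℝ) * |e| ^ 2 = (|e| * n) * |e| := by ring
        _ ≤ 1 / 3 * |e| := mul_le_mul_of_nonneg_right he3 ha
    have h3 : (n : ℝ) + 1 ≤ 3 / 2 * n := by linarith
    have h4 : 5 / 2 * ((n : ℝ) + 1) * |e| ^ 2 ≤ 5 / 4 * |e| := by
      calc 5 / 2 * ((n : ℝ) + 1) * |e| ^ 2 ≤ 5 / 2 * (3 / 2 * n) * |e| ^ 2 := by gcongr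
        _ = 15 / 4 * (n * |e| ^ 2) := by ring
        _ ≤ 15 / 4 * (1 / 3 * |e|) := by gcongr
        _ = _ := by ring
    have h5 : |e'| ≤ 7 / 4 * |e| := by
      rw [hsq] at h1
      linarith
    have hu : |e'| * ((2 ^ K * m : ℕ) : ℝ) ≤ 7 / 8 * (|e| * n) := by
      rw [hnn]
      calc |e'| * (n / 2) ≤ 7 / 4 * |e| * (n / 2) := mul_le_mul_of_nonneg_right h5 (by positivity)
        _ = _ := by ring
    have hb0 : 0 ≤ b := le_trans (by positivity) he
    have h6 := ih m hm e' (7 / 8 * b) (by linarith) (by linarith)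
    have h7 : ((2 ^ K * m : ℕ) : ℝ) + e' = f (n + e) := by rw [he']; ring
    rw [h7] at h6
    rw [Function.iterate_succ_apply]
    calc _ ≤ (7 / 8) ^ K * (7 / 8 * b) := h6
      _ = _ := by ring

theorem even_phase (K : ℕ) (m : ℕ) (hm : 1 ≤ m) (e : ℝ) (he : |e| * (2 ^ K * m : ℕ) ≤ 1 / 3) :
    |f^[K] ((2 ^ K * m : ℕ) + e) - m| * m ≤ (7 / 8) ^ K * (1 / 3) :=
  even_phase_aux K m hm e (1 / 3) le_rfl he

/-! ### critical points -/

theorem deriv_f (x : ℝ) : deriv f x =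
    1 - 1 / 2 * Real.cos (Real.pi * x) + (2 * x + 1) * Real.pi / 4 * Real.sin (Real.pi * x) := by
  have h1 : HasDerivAt (fun x : ℝ => Real.pi * x) Real.pi x := by
    simpa using (hasDerivAt_id x).const_mul Real.pi
  have h2 := h1.cos
  have h3 : HasDerivAt (fun x : ℝ => (2 * x + 1) / 4) (2 * 1 / 4) x :=
    (((hasDerivAt_id x).const_mul 2).add_const 1).div_const 4
  have h4 := ((hasDerivAt_id x).add_const (1 / 4)).sub (h3.mul h2)
  have h5 : HasDerivAt f (1 - (2 * 1 / 4 * Real.cos (Real.pi * x) +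
      (2 * x + 1) / 4 * (-Real.sin (Real.pi * x) * Real.pi))) x := h4
  rw [h5.deriv]; ring

theorem crit_exists (n : ℕ) (hn : 1 ≤ n) (h : n % 2 = 0) :
    ∃ c : ℝ, |c - n| < 1 / 2 ∧ deriv f c = 0 := by
  have hnR : (1 : ℝ) ≤ n := by exact_mod_cast hn
  have hcont : Continuous (deriv f) := by
    have : deriv f = fun x => 1 - 1 / 2 * Real.cos (Real.pi * x) +
        (2 * x + 1) * Real.pi / 4 * Real.sin (Real.pi * x) := funext deriv_f
    rw [this]; fun_prop
  have ha : deriv f ((n : ℝ) + (-1 / 2)) < 0 := by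
    rw [deriv_f, cos_shift_even n h, sin_shift_even n h,
      show Real.pi * (-1 / 2) = -(Real.pi / 2) by ring, Real.cos_neg, Real.sin_neg,
      Real.cos_pi_div_two, Real.sin_pi_div_two]
    nlinarith [Real.pi_gt_three]
  have hb : 0 < deriv f ((n : ℝ) + 0) := by
    rw [deriv_f, cos_shift_even n h, sin_shift_even n h]; simp; norm_num
  have h3 := intermediate_value_Icc (show (n : ℝ) + (-1 / 2) ≤ n + 0 by linarith) hcont.continuousOn
  obtain ⟨c, hc, hc0⟩ := h3 ⟨ha.le, hb.le⟩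
  have hne : c ≠ n + (-1 / 2) := by rintro rfl; rw [hc0] at ha; exact lt_irrefl _ ha
  have hlt : (n : ℝ) + (-1 / 2) < c := lt_of_le_of_ne hc.1 (Ne.symm hne)
  exact ⟨c, by rw [abs_lt]; constructor <;> linarith [hc.2], hc0⟩

theorem crit_near (n : ℕ) (hn : 1 ≤ n) (h : n % 2 = 0) (c : ℝ) (hc : |c - n| < 1 / 2)
    (h0 : deriv f c = 0) : |c - n| * n ≤ 1 / 3 := by
  have hnR : (1 : ℝ) ≤ n := by exact_mod_cast hn
  set e := c - n with he
  have hce : c = n + e := by rw [he]; ring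
  rw [hce, deriv_f, cos_shift_even n h, sin_shift_even n h] at h0
  have hpi := Real.pi_gt_three
  have hpi2 := Real.pi_lt_d2
  have he' := abs_lt.1 hc
  have hcos1 := Real.cos_le_one (Real.pi * e)
  have hcos0 : 0 ≤ Real.cos (Real.pi * e) := Real.cos_nonneg_of_mem_Icc ⟨by nlinarith, by nlinarith⟩
  have hsin : 2 * |e| ≤ |Real.sin (Real.pi * e)| := by
    have h1 : 2 / Real.pi * (Real.pi * |e|) ≤ Real.sin (Real.pi * |e|) :=
      Real.mul_le_sin (by positivity) (by nlinarith [abs_nonneg e])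
    have h2 : 2 / Real.pi * (Real.pi * |e|) = 2 * |e| := by field_simp
    rw [h2] at h1
    refine h1.trans ?_
    rcases abs_cases e with ⟨h3, _⟩ | ⟨h3, _⟩
    · rw [h3]; exact le_abs_self _
    · rw [h3, show Real.pi * -e = -(Real.pi * e) by ring, Real.sin_neg]; exact neg_le_abs _
  have hA : 0 < (2 * (n + e) + 1) * Real.pi / 4 := by
    have : 0 < 2 * ((n : ℝ) + e) + 1 := by linarith
    positivity
  have h4 : (2 * (n + e) + 1) * Real.pi / 4 * |Real.sin (Real.pi * e)| ≤ 1 := by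
    have h5 : (2 * (n + e) + 1) * Real.pi / 4 * Real.sin (Real.pi * e) =
        -(1 - 1 / 2 * Real.cos (Real.pi * e)) := by linarith
    have h6 : |(2 * (n + e) + 1) * Real.pi / 4 * Real.sin (Real.pi * e)| ≤ 1 := by
      rw [h5, abs_neg, abs_of_nonneg (by linarith)]; linarith
    rwa [abs_mul, abs_of_pos hA] at h6
  have h7 : (2 * (n + e) + 1) * Real.pi / 4 * (2 * |e|) ≤ 1 :=
    (mul_le_mul_of_nonneg_left hsin hA.le).trans h4
  have h8 : 2 * (n : ℝ) * Real.pi / 4 ≤ (2 * (n + e) + 1) * Real.pi / 4 := by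
    have : 2 * (n : ℝ) ≤ 2 * (n + e) + 1 := by linarith
    nlinarith
  have h9 : 2 * (n : ℝ) * Real.pi / 4 * (2 * |e|) ≤ 1 :=
    (mul_le_mul_of_nonneg_right h8 (by positivity)).trans h7
  have h10 : 3 * ((n : ℝ) * |e|) ≤ Real.pi * ((n : ℝ) * |e|) :=
    mul_le_mul_of_nonneg_right hpi.le (by positivity)
  nlinarith

end Pool.Agent.H355R2.Chamb
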